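import Mathlib
import Pool.Agent.K4H35.UK.Ten

/-!
# Rigid families of maps between the tensor powers of a vector space
-/

set_option linter.unusedSectionVars false

namespace Pool.Agent.K4H35.ZO

open Matrix Pool.Agent.K4H35.UK

noncomputable section

/-- The form `q` on the tensor power, as a linear form on `V ^ α ⊗ V ^ α`. -/
def capk {k ι : Type} [Field k] [Fintype ι] [DecidableEq ι] (α : Type) [Fintype α]
    [DecidableEq α] (q : Matrix ι ι k) : Matrix (Fin 0 → ι) (α ⊕ α → ι) k :=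
  Matrix.of fun _ y => tp α q (y ∘ Sum.inl) (y ∘ Sum.inr)

/-- The tensor `q` on the tensor power. -/
def cupk {k ι : Type} [Field k] [Fintype ι] [DecidableEq ι] (α : Type) [Fintype α]
    [DecidableEq α] (q : Matrix ι ι k) : Matrix (α ⊕ α → ι) (Fin 0 → ι) k :=
  Matrix.of fun x _ => tp α q (x ∘ Sum.inl) (x ∘ Sum.inr)

/-- A family of spaces of maps `V ^ α → V ^ β` which is closed under compositions, tensor products
and renumberings of the factors and which contains the identity, a nondegenerate form and its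
inverse, and a vector and a linear form with value `1` on it. -/
structure Rig (k ι : Type) [Field k] [Fintype ι] [DecidableEq ι] where
  Hom : ∀ (α β : Type) [Fintype α] [DecidableEq α] [Fintype β] [DecidableEq β],
    Submodule k (Matrix (β → ι) (α → ι) k)
  one_mem : ∀ (α : Type) [Fintype α] [DecidableEq α], (1 : Matrix (α → ι) (α → ι) k) ∈ Hom α α
  mul_mem : ∀ {α β γ : Type} [Fintype α] [DecidableEq α] [Fintype β] [DecidableEq β] [Fintype γ]
    [DecidableEq γ] {F : Matrix (β → ι) (α → ι) k} {G : Matrix (γ → ι) (β → ι) k},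
    F ∈ Hom α β → G ∈ Hom β γ → G * F ∈ Hom α γ
  tens_mem : ∀ {α β γ δ : Type} [Fintype α] [DecidableEq α] [Fintype β] [DecidableEq β]
    [Fintype γ] [DecidableEq γ] [Fintype δ] [DecidableEq δ] {F : Matrix (β → ι) (α → ι) k}
    {G : Matrix (δ → ι) (γ → ι) k}, F ∈ Hom α β → G ∈ Hom γ δ → tens F G ∈ Hom (α ⊕ γ) (β ⊕ δ)
  rl_mem : ∀ {α β α' β' : Type} [Fintype α] [DecidableEq α] [Fintype β] [DecidableEq β]
    [Fintype α'] [DecidableEq α'] [Fintype β'] [DecidableEq β'] {F : Matrix (β → ι) (α → ι) k},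
    F ∈ Hom α β → ∀ (e : β ≃ β') (e' : α ≃ α'), rl e e' F ∈ Hom α' β'
  q : Matrix ι ι k
  qi : Matrix ι ι k
  inv : q * qi = 1
  cap_mem : ∀ (α : Type) [Fintype α] [DecidableEq α], capk α q ∈ Hom (α ⊕ α) (Fin 0)
  cup_mem : ∀ (α : Type) [Fintype α] [DecidableEq α], cupk α qi ∈ Hom (Fin 0) (α ⊕ α)
  u : ι → k
  v : ι → k
  pair : ∑ i, v i * u i = 1
  u_mem : (Matrix.of fun (x : Fin 1 → ι) (_ : Fin 0 → ι) => u (x 0)) ∈ Hom (Fin 0) (Fin 1)
  v_mem : (Matrix.of fun (_ : Fin 0 → ι) (x : Fin 1 → ι) => v (x 0)) ∈ Hom (Fin 1) (Fin 0)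

variable {k ι : Type} [Field k] [Fintype ι] [DecidableEq ι] (P : Rig k ι)
  {α β γ δ : Type} [Fintype α] [DecidableEq α] [Fintype β] [DecidableEq β]
  [Fintype γ] [DecidableEq γ] [Fintype δ] [DecidableEq δ]

/-- The maps in the family which are numerically trivial: orthogonal to the family for the trace. -/
def Rig.N (α β : Type) [Fintype α] [DecidableEq α] [Fintype β] [DecidableEq β] :
    Submodule k (Matrix (β → ι) (α → ι) k) where
  carrier := {F | F ∈ P.Hom α β ∧ ∀ G ∈ P.Hom β α, trace (G * F) = 0}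
  zero_mem' := ⟨Submodule.zero_mem _, fun G _ => by rw [Matrix.mul_zero, trace_zero]⟩
  add_mem' := fun hF hG => ⟨Submodule.add_mem _ hF.1 hG.1, fun G h => by
    rw [Matrix.mul_add, trace_add, hF.2 G h, hG.2 G h, add_zero]⟩
  smul_mem' := fun r F hF => ⟨Submodule.smul_mem _ r hF.1, fun G h => by
    rw [Matrix.mul_smul, trace_smul, hF.2 G h, smul_zero]⟩

theorem Rig.mem_N {F : Matrix (β → ι) (α → ι) k} : F ∈ P.N α β ↔
    F ∈ P.Hom α β ∧ ∀ G ∈ P.Hom β α, trace (G * F) = 0 := Iff.rfl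

/-- The map `F ↦ Y F X`. -/
def cut (X : Matrix (α → ι) (α → ι) k) (Y : Matrix (β → ι) (β → ι) k) :
    Matrix (β → ι) (α → ι) k →ₗ[k] Matrix (β → ι) (α → ι) k where
  toFun F := Y * F * X
  map_add' F G := by rw [Matrix.mul_add, Matrix.add_mul]
  map_smul' r F := by rw [Matrix.mul_smul, Matrix.smul_mul]; rfl

/-- The space of the maps `Y F X` modulo numerically trivial maps. -/
def Rig.cutSpace (X : Matrix (α → ι) (α → ι) k) (Y : Matrix (β → ι) (β → ι) k) :
    Submodule k (Matrix (β → ι) (α → ι) k ⧸ P.N α β) :=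
  ((P.Hom α β).map (cut X Y)).map (P.N α β).mkQ

/-- The dimension of the space of maps from the image of `X` to the image of `Y`, modulo numerically
trivial maps. -/
def Rig.dm (X : Matrix (α → ι) (α → ι) k) (Y : Matrix (β → ι) (β → ι) k) : ℕ :=
  Module.finrank k (P.cutSpace X Y)

/-- The multiplicity of the trivial object in the image of `Y`. -/
def Rig.sg (Y : Matrix (β → ι) (β → ι) k) : ℕ :=
  P.dm (1 : Matrix (Fin 0 → ι) (Fin 0 → ι) k) Y

/-- The adjoint of `F` for the form `q`. -/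
def Rig.adj (F : Matrix (β → ι) (α → ι) k) : Matrix (α → ι) (β → ι) k :=
  tp α P.qi * Fᵀ * tp β P.q

end

end Pool.Agent.K4H35.ZO
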